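import Pool.Agent.helper33.SP.SpecC1S
import Pool.Agent.helper38.SP.K.LG

/-!
# Project sp, module UJ16: standard arms with two gates
-/

namespace TP

open DP MeasureTheory

theorem UJ16_ann_box (x : V) {m n n' : ℕ} (h : n ≤ n') : ann x m n ⊆ box x n' := by
  intro v hv
  exact le_trans hv.2 h

theorem UJ16_ann_ann (x : V) {m n m' n' : ℕ} (h1 : m' ≤ m) (h : n ≤ n') :
    ann x m n ⊆ ann x m' n' := by
  intro v hv
  exact ⟨le_trans h1 hv.1, le_trans hv.2 h⟩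

theorem UJ16_pow {a b : ℕ} (h : a ≤ b) : 2 ^ a ≤ 2 ^ b := Nat.pow_le_pow_right (by norm_num) h

theorem UJ16 (hGSB : K.GSB_stmt) (hBTH : K.BTH_stmt) (hGB : K.GB_stmt) (hUPP : K.UPP_stmt)
    (hWB : K.WB_stmt) (hLQ : K.LQ_stmt) (hUI7 : UI7_stmt) : UJ16_stmt := by
  obtain ⟨cs, hcs, gs, i₁, hs⟩ := hGSB
  obtain ⟨Cb, hCb, i₂, hb⟩ := hBTH
  obtain ⟨c₄, hc₄, i₃, hg⟩ := hGB
  obtain ⟨hW1, -, -, hWprod, hWmono, hWconst, -, hWind⟩ := hWB
  obtain ⟨-, -, hLB, -, -, -⟩ := hLQ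
  refine ⟨cs * cs * c₄ * c₄ / Cb, gs + 1, gs + 1 + 20 + i₁ + i₂ + i₃, by positivity, by omega,
    by omega, ?_⟩
  intro p m x hp hm hx
  set g : ℕ := gs + 1 with hgdef
  have hxe : Even (x.1 + x.2) := Int.even_iff.2 hx
  set G1 : Set (V → Bool) := Ev fun c => Gate c x (2 ^ (p - g - 1)) (2 ^ (p - 1)) with hG1
  set G2 : Set (V → Bool) := Ev fun c => Gate c x (2 ^ (p + m + 1)) (2 ^ (p + m + g + 1)) with hG2
  have hgts : gts x p m g = G1 ∩ G2 := rfl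
  -- the three blocks
  have e1 := hs x (p - g - 1) (p - 1) hxe (by omega) (by omega)
  rw [show p - g - 1 - 1 = p - g - 2 by omega, show p - 1 + 1 = p by omega] at e1
  have e2 := hb x (p + 2) (p + m - 2) hxe (by omega) (by omega)
  rw [show p + 2 - 1 = p + 1 by omega, show p + m - 2 + 1 = p + m - 1 by omega] at e2
  have e3 := hs x (p + m + 1) (p + m + g + 1) hxe (by omega) (by omega)
  rw [show p + m + 1 - 1 = p + m by omega, show p + m + g + 1 + 1 = p + m + g + 2 by omega] at e3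
  -- locality
  have l1 : Loc G1 (ann x (2 ^ (p - g - 1)) (2 ^ (p - 1))) := (K.LG x _ _).1
  have l2 : Loc G2 (ann x (2 ^ (p + m + 1)) (2 ^ (p + m + g + 1))) := (K.LG x _ _).1
  have b1 : Loc (B4 x (p - g - 2) p) (ann x (2 ^ (p - g - 2)) (2 ^ p)) := hLB x _ _ (by omega)
  have b3 : Loc (B4 x (p + m) (p + m + g + 2)) (ann x (2 ^ (p + m)) (2 ^ (p + m + g + 2))) :=
    hLB x _ _ (by omega)
  have b4 : Loc (B4 x (p - g - 2) (p + m + g + 2))
      (ann x (2 ^ (p - g - 2)) (2 ^ (p + m + g + 2))) := hLB x _ _ (by omega)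
  set Z1 : (V → Bool) → ℝ := G1.indicator fun _ => (1 : ℝ) with hZ1
  set Z2 : (V → Bool) → ℝ := G2.indicator fun _ => (1 : ℝ) with hZ2
  have hz1 : ∀ b, 0 ≤ Z1 b := fun b => Set.indicator_nonneg (fun _ _ => zero_le_one) b
  have hz2 : ∀ b, 0 ≤ Z2 b := fun b => Set.indicator_nonneg (fun _ _ => zero_le_one) b
  have f1 : LocF Z1 (ann x (2 ^ (p - g - 1)) (2 ^ (p - 1))) := (hWind G1 (B4 x (p - g - 2) p) _ _ 1
    l1 b1).1
  have f2 : LocF Z2 (ann x (2 ^ (p + m + 1)) (2 ^ (p + m + g + 1))) :=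
    (hWind G2 (B4 x (p - g - 2) p) _ _ 1 l2 b1).1
  have v1 : EZ Z1 (B4 x (p - g - 2) p) = Pr (G1 ∩ B4 x (p - g - 2) p) := by
    rw [(hWind G1 (B4 x (p - g - 2) p) _ _ 1 l1 b1).2, one_mul]
  have v3 : EZ Z2 (B4 x (p + m) (p + m + g + 2)) = Pr (G2 ∩ B4 x (p + m) (p + m + g + 2)) := by
    rw [(hWind G2 (B4 x (p + m) (p + m + g + 2)) _ _ 1 l2 b3).2, one_mul]
  -- first gluing
  have h1 := hg x Z1 (fun _ => 1) (p - g - 2) (p - 1) (p + m - 1) hxe (by omega) (by omega)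
    (by omega) (hWmono _ _ _ (UJ16_ann_box x le_rfl) f1) (hWconst 1 _) hz1
    (fun _ => zero_le_one)
  rw [show p - 1 + 1 = p by omega, show p - 1 + 2 = p + 1 by omega, v1, hW1] at h1
  -- second gluing
  have f1' : LocF (fun b => Z1 b * 1) (box x (2 ^ (p + m - 2))) := by
    have : (fun b => Z1 b * 1) = Z1 := by funext b; rw [mul_one]
    rw [this]
    exact hWmono _ _ _ (UJ16_ann_box x (UJ16_pow (by omega))) f1
  have h2 := hg x (fun b => Z1 b * 1) Z2 (p - g - 2) (p + m - 2) (p + m + g + 2) hxe (by omega)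
    (by omega) (by omega) f1'
    (hWmono _ _ _ (UJ16_ann_ann x (UJ16_pow (by omega)) (UJ16_pow (by omega))) f2)
    (fun b => by rw [mul_one]; exact hz1 b) hz2
  rw [show p + m - 2 + 1 = p + m - 1 by omega, show p + m - 2 + 2 = p + m by omega, v3] at h2
  have hprod : (fun b => Z1 b * 1 * Z2 b) = (G1 ∩ G2).indicator fun _ => (1 : ℝ) := by
    funext b
    rw [mul_one, hZ1, hZ2, ← Set.inter_indicator_mul]
    simp
  have v4 : EZ (fun b => Z1 b * 1 * Z2 b) (B4 x (p - g - 2) (p + m + g + 2)) =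
      Pr (G1 ∩ G2 ∩ B4 x (p - g - 2) (p + m + g + 2)) := by
    rw [hprod, (hWind (G1 ∩ G2) (B4 x (p - g - 2) (p + m + g + 2)) _ _ 1 (l1.inter l2) b4).2,
      one_mul]
  rw [v4] at h2
  -- upper bound
  have h3 := hUPP x (p - g - 1) (p - 1) (p + 2) (p + m - 2) (p + m + g + 1) (fun _ => 1) (by omega)
    (by omega) (by omega) (by omega) (by omega) (hWconst 1 _) (fun _ => zero_le_one)
  rw [hW1, hW1, show p + m - 2 + 3 = p + m + 1 by omega] at h3
  have ha : a4 (p - g - 1) (p + m + g + 1) = Pr (F4 x (p - g - 1) (p + m + g + 1)) :=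
    ((hUI7.2 x _ _ hx).1).symm
  rw [ha, hgts]
  have p1 : 0 ≤ Pr (F4 x (p - g - 1) (p - 1)) := measureReal_nonneg
  have p2 : 0 ≤ Pr (F4 x (p + 2) (p + m - 2)) := measureReal_nonneg
  have p3 : 0 ≤ Pr (F4 x (p + m + 1) (p + m + g + 1)) := measureReal_nonneg
  have q1 : 0 ≤ Pr (G1 ∩ B4 x (p - g - 2) p) := measureReal_nonneg
  have q2 : 0 ≤ Pr (B4 x (p + 1) (p + m - 1)) := measureReal_nonneg
  have q3 : 0 ≤ Pr (G2 ∩ B4 x (p + m) (p + m + g + 2)) := measureReal_nonneg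
  set P1' := Pr (F4 x (p - g - 1) (p - 1))
  set P2' := Pr (F4 x (p + 2) (p + m - 2))
  set P3' := Pr (F4 x (p + m + 1) (p + m + g + 1))
  set Q1' := Pr (G1 ∩ B4 x (p - g - 2) p)
  set Q2' := Pr (B4 x (p + 1) (p + m - 1))
  set Q3' := Pr (G2 ∩ B4 x (p + m) (p + m + g + 2))
  have hP2 : P2' / Cb ≤ Q2' := by
    rw [div_le_iff₀ hCb, mul_comm]
    exact e2
  calc cs * cs * c₄ * c₄ / Cb * Pr (F4 x (p - g - 1) (p + m + g + 1))
      ≤ cs * cs * c₄ * c₄ / Cb * (P1' * (P2' * P3')) :=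
        mul_le_mul_of_nonneg_left h3 (by positivity)
    _ = c₄ * (c₄ * ((cs * P1') * (P2' / Cb)) * (cs * P3')) := by ring
    _ ≤ c₄ * (c₄ * (Q1' * Q2') * Q3') := by
        refine mul_le_mul_of_nonneg_left ?_ hc₄.le
        refine mul_le_mul ?_ e3 (by positivity) (by positivity)
        refine mul_le_mul_of_nonneg_left ?_ hc₄.le
        exact mul_le_mul e1 hP2 (by positivity) q1
    _ ≤ c₄ * (EZ (fun b => Z1 b * 1) (B4 x (p - g - 2) (p + m - 1)) * Q3') := by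
        refine mul_le_mul_of_nonneg_left ?_ hc₄.le
        exact mul_le_mul_of_nonneg_right h1 q3
    _ ≤ Pr (G1 ∩ G2 ∩ B4 x (p - g - 2) (p + m + g + 2)) := h2

end TP
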