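import Pool.Agent.helper49.SP.SpecAS

/-!
# Project sp, module P2: the assembly
-/

namespace TP

open DP MeasureTheory

theorem P2_pl_succ (t k₁ m s l : ℕ) : pl t k₁ m s (l + 1) = pl t k₁ m s l + m + 3 * s := by
  unfold pl
  ring

theorem P2_pl_ge (t k₁ m s l : ℕ) : t ≤ pl t k₁ m s l := by
  unfold pl
  omega

theorem P2_pl_le (t k₁ m s l M k i : ℕ) (hl : l < 6 * M)
    (h : t + k₁ + (6 * M + 3) * (m + 3 * s) + k ≤ i) : pl t k₁ m s (l + 3) + k ≤ i := by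
  unfold pl
  have : (l + 3) * (m + 3 * s) ≤ (6 * M + 3) * (m + 3 * s) := Nat.mul_le_mul_right _ (by omega)
  omega

theorem P2_pl_le' (t k₁ m s l M k i : ℕ) (hl : l < 6 * M)
    (h : t + k₁ + (6 * M + 3) * (m + 3 * s) + k ≤ i) : pl t k₁ m s (l + 1) + k ≤ i := by
  unfold pl
  have : (l + 1) * (m + 3 * s) ≤ (6 * M + 3) * (m + 3 * s) := Nat.mul_le_mul_right _ (by omega)
  omega

/-- lower bound of `rat` -/
theorem P2_rat (p m s : ℕ) (K c : ℝ) (hK : 0 < K) (hc : 0 < c)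
    (h1 : c ≤ a4 p (p + m)) (h2 : c ≤ a4 (p + m + 3 * s) (p + m + 3 * s + m))
    (h3 : a4 p (p + m) ^ 2 / K ≤ a6 (p + 1) (p + m - 1))
    (h4 : a4 (p + m + 3 * s) (p + m + 3 * s + m) ^ 2 / K ≤
      a6 (p + m + 3 * s + 1) (p + m + 3 * s + m - 1)) :
    c ^ 4 / K ^ 3 ≤ rat p m s := by
  unfold rat
  set A := a4 p (p + m) with hA
  set A' := a4 (p + m + 3 * s) (p + m + 3 * s + m) with hA'
  have hAp : 0 < A := lt_of_lt_of_le hc h1
  have hAp' : 0 < A' := lt_of_lt_of_le hc h2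
  have h5 : (A ^ 2 / K) ^ 2 * (A' ^ 2 / K) ≤ a6 (p + 1) (p + m - 1) ^ 2 *
      a6 (p + m + 3 * s + 1) (p + m + 3 * s + m - 1) := by
    have e1 : 0 ≤ A ^ 2 / K := by positivity
    have e2 : 0 ≤ A' ^ 2 / K := by positivity
    exact mul_le_mul (pow_le_pow_left₀ e1 h3 2) h4 e2 (by positivity)
  rw [le_div_iff₀ (mul_pos hAp hAp')]
  refine le_trans ?_ h5
  have e3 : (A ^ 2 / K) ^ 2 * (A' ^ 2 / K) = (A ^ 3 * A') / K ^ 3 * (A * A') := by
    field_simp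
  rw [e3]
  refine mul_le_mul_of_nonneg_right ?_ (mul_pos hAp hAp').le
  refine div_le_div_of_nonneg_right ?_ (by positivity)
  have e4 : c ^ 3 ≤ A ^ 3 := pow_le_pow_left₀ hc.le h1 3
  calc c ^ 4 = c ^ 3 * c := by ring
    _ ≤ A ^ 3 * A' := mul_le_mul e4 h2 hc.le (by positivity)

theorem ASM_main : ASM_main_stmt := by
  intro hP1 hM1 hAC1 hAC2 hS1 hS2 hS3 hS4 hF1 hF2 hF3 hU1i hU2i hU2ii hU1ii hU3 hU4 hQA hPAR
  apply hP1
  intro η hη
  obtain ⟨κ, k, e₀, hκ, hke, hU3'⟩ := hU3 (η / 4) (by positivity)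
  have hδ : (0 : ℝ) < η * κ / 128 := by positivity
  obtain ⟨L₁, K, k₁0, hL₁, hK, hAC1'⟩ := hAC1 hU1i hS1 hU2i hQA hF1 hF2 (η * κ / 128) hδ
  obtain ⟨k₂0, hAC2'⟩ := hAC2 hU2ii hS2 hU1ii hQA hF1 hF3 (η * κ / 128) K hδ hK
  obtain ⟨hq1, hq2, C, k₃0, hC, hq3, -⟩ := hQA
  set s : ℕ := k₁0 + k₂0 with hs
  obtain ⟨L₂, B, m₀, hL₂, hB, hkm, hrat, hAC2''⟩ := hAC2' s (by omega)
  set m : ℕ := m₀ + k₁0 with hm
  set k₁ : ℕ := k₁0 + k₂0 with hk₁
  have hC0 : 0 < C ^ (m + 1) := by positivity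
  set c : ℝ := (C ^ (m + 1))⁻¹ with hc
  have hc0 : 0 < c := by positivity
  have hlow : ∀ p, k₃0 ≤ p → c ≤ a4 p (p + m) := by
    intro p hp
    rw [hc, inv_le_iff_one_le_mul₀ hC0]
    exact hq3 p m hp
  obtain ⟨M, hMa⟩ := exists_nat_ge (max (L₁ / c) (L₂ / (c ^ 4 / K ^ 3)))
  have hM1' : L₁ ≤ M * c := by
    rw [← div_le_iff₀ hc0]
    exact le_trans (le_max_left _ _) hMa
  have hcK : 0 < c ^ 4 / K ^ 3 := by positivity
  have hM2' : L₂ ≤ M * (c ^ 4 / K ^ 3) := by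
    rw [← div_le_iff₀ hcK]
    exact le_trans (le_max_right _ _) hMa
  set e : ℕ := e₀ + 1 + k₁ + (6 * M + 3) * (m + 3 * s) + k with he
  obtain ⟨i₀, hi₀⟩ := hU3' e (by omega)
  have hU4' : ∀ᶠ i in Filter.atTop, PS i (fun X => ¬ X.Nonempty) ≤ η / 4 :=
    (hU4.eventually (gt_mem_nhds (by positivity : (0 : ℝ) < η / 4))).mono fun i hi => hi.le
  obtain ⟨i₁, hi₁⟩ := Filter.eventually_atTop.1 hU4'
  set G0 : Finset (ℤ × ℤ) := Finset.Icc 0 (2 * 2 ^ e) ×ˢ Finset.Icc 0 (2 * 2 ^ e) with hG0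
  set Tm : ℕ := ⌊κ * 4 ^ e + 1⌋₊ + 1 with hTm
  refine ⟨e, i₀ + i₁ + e + k₁0 + k₂0 + k₃0,
    ((G0.powerset ×ˢ (Finset.range (6 * M)).powerset ×ˢ Finset.range Tm).toList.map
      fun q => TEST q.1.toList (psiI k₁ m s q.2.1) q.2.2) ++
    ((G0.powerset ×ˢ (Finset.range (6 * M)).powerset ×ˢ Finset.range Tm).toList.map
      fun q => TEST q.1.toList (psiII k₁ m s q.2.1) q.2.2), ?_⟩
  intro i hi
  have hie : e ≤ i := by omega
  set t : ℕ := i - e with ht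
  have hti : t + e = i := by omega
  have htk : t + k₁ + (6 * M + 3) * (m + 3 * s) + k ≤ i := by omega
  have ha4pos : 0 < a4 (i - e) (i - k) := by
    have h1 := hq3 (i - e) (e - k) (by omega)
    have h2 : i - e + (e - k) = i - k := by omega
    rw [h2] at h1
    by_contra hneg
    have h3 : a4 (i - e) (i - k) ≤ 0 := not_lt.1 hneg
    have h4 : a4 (i - e) (i - k) * C ^ (e - k + 1) ≤ 0 :=
      mul_nonpos_of_nonpos_of_nonneg h3 (by positivity)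
    linarith
  -- the two cases
  have hmain : ∃ (Λ : Finset ℕ) (ψ : ℤ × ℤ → Form), Λ ⊆ Finset.range (6 * M) ∧
      (ψ = psiI k₁ m s Λ ∨ ψ = psiII k₁ m s Λ) ∧
      ∀ (z : ℤ × ℤ) (x : V), x = (z.1 * (2 ^ (i - e) : ℕ), z.2 * (2 ^ (i - e) : ℕ)) →
        x ∈ GB i k (i - e) →
        PS i (fun X => (∃ v ∈ X, sd x v ≤ 2 ^ (i - e)) ∧ ¬ satC (2 ^ (i - e)) X (ψ z)) ≤
          (η * κ / 128) * a4 (i - e) (i - k) ∧
        PPv i (fun X => (∃ v ∈ X, sd x v ≤ 2 * 2 ^ (i - e)) ∧ satO (2 ^ (i - e)) X (ψ z)) ≤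
          (η * κ / 128) * a4 (i - e) (i - k) := by
    have hGB : ∀ x ∈ GB i k (i - e), (x.1 + x.2) % 2 = 0 ∧ Bulk i k x := by
      intro x hx
      simp only [GB, Finset.mem_filter] at hx
      obtain ⟨-, h1, h2, h3⟩ := hx
      refine ⟨?_, h3⟩
      have h4 : (2 : ℤ) ∣ x.1 := dvd_trans (dvd_pow_self 2 (by omega)) h1
      have h5 : (2 : ℤ) ∣ x.2 := dvd_trans (dvd_pow_self 2 (by omega)) h2
      omega
    rcases hS4 (fun l => a6 (pl t k₁ m s l + 1) (pl t k₁ m s l + m - 1) ≤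
        a4 (pl t k₁ m s l) (pl t k₁ m s l + m) ^ 2 / K) M with
      ⟨Λ, hΛc, hΛ, hΛs⟩ | ⟨Λ, hΛc, hΛ, hΛs⟩
    · have hsum : L₁ ≤ ∑ l ∈ Λ, a4 (pl t k₁ m s l) (pl t k₁ m s l + m) := by
        refine le_trans hM1' ?_
        rw [← hΛc, ← nsmul_eq_mul]
        refine Finset.card_nsmul_le_sum _ _ _ fun l _ => hlow _ ?_
        have := P2_pl_ge t k₁ m s l
        omega
      obtain ⟨Λ', hΛ', hs1, hs2⟩ := hS3 Λ (fun l => a4 (pl t k₁ m s l) (pl t k₁ m s l + m)) 1 L₁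
        hL₁.le zero_le_one (fun l _ => hq1 _ _) hsum
      refine ⟨Λ', psiI k₁ m s Λ', fun l hl => Finset.mem_range.2 (hΛ l (hΛ' hl)).1, Or.inl rfl, ?_⟩
      intro z x hxz hx
      obtain ⟨hx1, hx2⟩ := hGB x hx
      exact hAC1' i k t k₁ m s Λ' z x (by omega) (by omega) (by omega) (by omega)
        (fun l hl => P2_pl_le' t k₁ m s l M k i (hΛ l (hΛ' hl)).1 htk) hxz hx1 hx2
        (fun l hl => (hΛ l (hΛ' hl)).2) hs1 hs2
    · have hsum : L₂ ≤ ∑ l ∈ Λ, rat (pl t k₁ m s l) m s := by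
        refine le_trans hM2' ?_
        rw [← hΛc, ← nsmul_eq_mul]
        refine Finset.card_nsmul_le_sum _ _ _ fun l hl => ?_
        have hge := P2_pl_ge t k₁ m s l
        obtain ⟨-, hn1, hn2⟩ := hΛ l hl
        rw [P2_pl_succ] at hn2
        exact P2_rat _ m s K c hK hc0 (hlow _ (by omega)) (hlow _ (by omega))
          (not_le.1 hn1).le (not_le.1 hn2).le
      obtain ⟨Λ', hΛ', hs1, hs2⟩ := hS3 Λ (fun l => rat (pl t k₁ m s l) m s) B L₂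
        hL₂.le hB.le (fun l _ => hrat _ _ (by have := P2_pl_ge t k₁ m s l; omega) (by omega)) hsum
      refine ⟨Λ', psiII k₁ m s Λ', fun l hl => Finset.mem_range.2 (hΛ l (hΛ' hl)).1, Or.inr rfl, ?_⟩
      intro z x hxz hx
      obtain ⟨hx1, hx2⟩ := hGB x hx
      exact hAC2'' i k t k₁ m Λ' z x (by omega) (by omega) (by omega)
        (fun l hl l' hl' h => hΛs l (hΛ' hl) l' (hΛ' hl') h)
        (fun l hl => P2_pl_le t k₁ m s l M k i (hΛ l (hΛ' hl)).1 htk) hxz hx1 hx2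
        (fun l hl => ⟨(not_le.1 (hΛ l (hΛ' hl)).2.1).le, (not_le.1 (hΛ l (hΛ' hl)).2.2).le⟩) hs1 hs2
  obtain ⟨Λ, ψ, hΛ, hψ, hψ2⟩ := hmain
  obtain ⟨G, T, hG, hT, hT1, hT2⟩ := hM1 i k e κ (η * κ / 128) (η / 4) ψ hie (by omega) hκ hδ
    (by positivity) ha4pos (hi₁ i (by omega)) (hi₀ i (by omega)) hψ2
  have hGm : G ∈ G0.powerset := by
    rw [Finset.mem_powerset]
    intro z hz
    obtain ⟨h1, h2, h3, h4⟩ := hG z hz
    rw [hG0, Finset.mem_product, Finset.mem_Icc, Finset.mem_Icc]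
    exact ⟨⟨h1, h2⟩, ⟨h3, h4⟩⟩
  have hTl : T ∈ Finset.range Tm := by
    rw [Finset.mem_range, hTm]
    have : T ≤ ⌊κ * 4 ^ e + 1⌋₊ := Nat.le_floor hT
    omega
  have hval : 32 * (η * κ / 128) / κ = η / 4 := by
    field_simp
    ring
  rw [hval] at hT1 hT2
  refine ⟨TEST G.toList ψ T, ?_, by linarith, by linarith⟩
  rw [List.mem_append]
  rcases hψ with rfl | rfl
  · left
    exact List.mem_map.2 ⟨(G, Λ, T), by
      rw [Finset.mem_toList, Finset.mem_product, Finset.mem_product]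
      exact ⟨hGm, Finset.mem_powerset.2 hΛ, hTl⟩, rfl⟩
  · right
    exact List.mem_map.2 ⟨(G, Λ, T), by
      rw [Finset.mem_toList, Finset.mem_product, Finset.mem_product]
      exact ⟨hGm, Finset.mem_powerset.2 hΛ, hTl⟩, rfl⟩

end TP
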